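import Mathlib

namespace Pool.Agent.H.MP_acbfbf_co

open PowerSeries Finset

def Pos (f : ℚ⟦X⟧) : Prop := ∀ n, 0 ≤ coeff n f

theorem Pos.add {f g : ℚ⟦X⟧} (hf : Pos f) (hg : Pos g) : Pos (f + g) := fun n => by
  rw [map_add]; exact add_nonneg (hf n) (hg n)

theorem Pos.mul {f g : ℚ⟦X⟧} (hf : Pos f) (hg : Pos g) : Pos (f * g) := fun n => by
  rw [coeff_mul]; exact sum_nonneg fun p _ => mul_nonneg (hf _) (hg _)

theorem pX (k : ℕ) : Pos (X ^ k) := fun n => by rw [coeff_X_pow]; split_ifs <;> norm_num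

theorem p1 : Pos 1 := by simpa using pX 0

theorem pprod {s : Finset ℕ} {f : ℕ → ℚ⟦X⟧} (h : ∀ i, Pos (f i)) : Pos (∏ i ∈ s, f i) :=
  prod_induction f Pos (fun _ _ => Pos.mul) p1 fun i _ => h i

theorem psum {s : Finset ℕ} {f : ℕ → ℚ⟦X⟧} (h : ∀ i, Pos (f i)) : Pos (∑ i ∈ s, f i) :=
  sum_induction f Pos (fun _ _ => Pos.add) (fun n => by simp) fun i _ => h i

theorem Pos.mul1 {f g : ℚ⟦X⟧} (hf : Pos (f - 1)) (hg : Pos (g - 1)) : Pos (f * g - 1) := by
  have := ((hf.mul hg).add hf).add hg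
  rwa [show (f - 1) * (g - 1) + (f - 1) + (g - 1) = f * g - 1 by ring] at this

noncomputable def I (k : ℕ) : ℚ⟦X⟧ := (1 - X ^ k)⁻¹

theorem hI {k : ℕ} (hk : k ≠ 0) : (1 - X ^ k) * I k = 1 :=
  PowerSeries.mul_inv_cancel _ (by simp [hk])

theorem pI {k : ℕ} (hk : k ≠ 0) : Pos (I k) := by
  intro n
  induction n using Nat.strong_induction_on with
  | _ n ih =>
    have e : I k = 1 + X ^ k * I k := by linear_combination hI hk
    rw [e, map_add, coeff_X_pow_mul']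
    refine add_nonneg (p1 n) ?_
    split_ifs with h
    · exact ih _ (by omega)
    · exact le_rfl

theorem pI1 {k : ℕ} (hk : k ≠ 0) : Pos (I k - 1) := by
  rw [show I k - 1 = X ^ k * I k by linear_combination hI hk]
  exact (pX k).mul (pI hk)

theorem geo {k : ℕ} (hk : k ≠ 0) (m : ℕ) :
    (1 - (X ^ k) ^ m) * I k = ∑ i ∈ range m, ((X : ℚ⟦X⟧) ^ k) ^ i := by
  rw [← mul_neg_geom_sum]
  linear_combination (∑ i ∈ range m, ((X : ℚ⟦X⟧) ^ k) ^ i) * hI hk

theorem inv_prod (f : ℕ → ℚ⟦X⟧) (m : ℕ) : (∏ i ∈ range m, f i)⁻¹ = ∏ i ∈ range m, (f i)⁻¹ := by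
  induction m with
  | zero => simp
  | succ m ih => rw [prod_range_succ, prod_range_succ, PowerSeries.mul_inv_rev, ih, mul_comm]

theorem syl (L : ℕ) : ∏ k ∈ range L, I (2 * k + 1)
    = (∏ k ∈ range L, (1 + X ^ (k + 1))) * ∏ k ∈ range L, I (L + k + 1) := by
  induction L with
  | zero => simp
  | succ L ih =>
    have e : (∏ k ∈ range (L + 1), I (L + 1 + k + 1)) * I (L + 1)
        = (∏ k ∈ range L, I (L + k + 1)) * I (2 * L + 1) * I (2 * L + 2) := by
      have h1 := prod_range_succ' (fun k => I (L + k + 1)) (L + 1)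
      rw [prod_range_succ, prod_range_succ] at h1
      simp only [show ∀ k, L + (k + 1) + 1 = L + 1 + k + 1 from fun k => by ring, add_zero] at h1
      rw [← h1, show L + L + 1 = 2 * L + 1 by ring, show L + 1 + L + 1 = 2 * L + 2 by ring]
    have h1 := hI (k := L + 1) (by omega)
    have h2 := hI (k := 2 * L + 2) (by omega)
    rw [show (X : ℚ⟦X⟧) ^ (2 * L + 2) = (X ^ (L + 1)) ^ 2 by ring] at h2
    rw [prod_range_succ, ih, prod_range_succ (fun k => 1 + (X : ℚ⟦X⟧) ^ (k + 1))]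
    generalize ∏ k ∈ range (L + 1), I (L + 1 + k + 1) = U' at *
    generalize ∏ k ∈ range L, I (L + k + 1) = U at *
    generalize ∏ k ∈ range L, (1 + (X : ℚ⟦X⟧) ^ (k + 1)) = D at *
    generalize (X : ℚ⟦X⟧) ^ (L + 1) = y at *
    linear_combination (-D * (1 - y ^ 2)) * e + D * (1 + y) * U' * h1 - D * U * I (2 * L + 1) * h2

noncomputable def G (k M : ℕ) : ℚ⟦X⟧ :=
  (1 - (X ^ k) ^ (M + 1)) * (1 - (X ^ k) ^ (M + 2)) * I k * I (2 * k)

theorem G_sum {k : ℕ} (hk : k ≠ 0) (M : ℕ) :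
    G k M = ∑ j ∈ range (M + 1), ∑ i ∈ range (j + 1), X ^ (k * (j + i)) := by
  have h1 := hI hk
  have h2 := hI (k := 2 * k) (by omega)
  rw [show (X : ℚ⟦X⟧) ^ (2 * k) = (X ^ k) ^ 2 by ring] at h2
  induction M with
  | zero =>
    simp only [G, zero_add, sum_range_one, mul_zero, pow_zero, pow_one]
    linear_combination (1 - (X ^ k) ^ 2) * I (2 * k) * h1 + h2
  | succ M ih =>
    rw [sum_range_succ, ← ih]
    have : ∑ i ∈ range (M + 1 + 1), (X : ℚ⟦X⟧) ^ (k * (M + 1 + i))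
        = (X ^ k) ^ (M + 1) * ((1 - (X ^ k) ^ (M + 2)) * I k) := by
      rw [geo hk, mul_sum]
      exact sum_congr rfl fun i _ => by ring
    rw [this, G, G]
    generalize (X : ℚ⟦X⟧) ^ k = y at *
    linear_combination y ^ (M + 1) * (1 - y ^ (M + 2)) * I k * h2

theorem pG {k : ℕ} (hk : k ≠ 0) (M : ℕ) : Pos (G k M) := by
  rw [G_sum hk]; exact psum fun j => psum fun i => pX _

theorem pA (m : ℕ) : Pos ((1 - X ^ (2 * m)) * I 2) := by
  rw [pow_mul, geo two_ne_zero]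
  exact psum fun i => by rw [← pow_mul]; exact pX _

theorem core (M : ℕ) : Pos ((1 + X) * (1 + X ^ 2) *
    ((1 - X ^ (2 * (M + 3))) * I 2 + X ^ 3 * G 2 M) - X * G 1 M) := by
  intro n
  by_cases hn : n < 2 * M + 5
  · have h1 := hI one_ne_zero
    have h2 := hI two_ne_zero
    have h4 := hI four_ne_zero
    have e1 : (1 + X) * I 2 = I 1 := by linear_combination I 2 * (-(1 + X)) * h1 + I 1 * h2
    have e2 : (1 + X ^ 2) * I 4 = I 2 := by linear_combination I 4 * (-(1 + X ^ 2)) * h2 + I 2 * h4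
    have e : (1 + X) * (1 + X ^ 2) * ((1 - X ^ (2 * (M + 3))) * I 2 + X ^ 3 * G 2 M) - X * G 1 M
        = (1 + X ^ 2 * I 1 + X ^ (M + 2) * I 1 * I 2
          + X ^ (M + 3) * ((1 - (X ^ 1) ^ (M + 1)) * I 1) * I 2)
          - X ^ (2 * M + 5) * ((1 + X ^ 2) * I 1 * X + (1 + X ^ 2 - X ^ (2 * M + 4)) * I 1 * I 2) := by
      simp only [G]
      linear_combination ((1 + X ^ 2) * (1 - X ^ (2 * (M + 3))) + X ^ 3 * (1 - (X ^ 2) ^ (M + 1))
        * (1 - (X ^ 2) ^ (M + 2)) * (1 + X ^ 2) * I 4) * e1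
        + X ^ 3 * (1 - (X ^ 2) ^ (M + 1)) * (1 - (X ^ 2) ^ (M + 2)) * I 1 * e2
        - X * I 1 * h2 + h1
    rw [e, map_sub, coeff_X_pow_mul', if_neg (by omega), sub_zero]
    refine Pos.add ((p1.add ((pX 2).mul (pI one_ne_zero))).add
      (((pX _).mul (pI one_ne_zero)).mul (pI two_ne_zero))) (((pX _).mul ?_).mul (pI two_ne_zero)) n
    rw [geo one_ne_zero]
    exact psum fun i => by rw [← pow_mul]; exact pX _
  · have : coeff n (X * G 1 M) = 0 := by
      rw [G_sum one_ne_zero, mul_sum, map_sum]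
      refine sum_eq_zero fun j hj => ?_
      rw [mul_sum, map_sum]
      refine sum_eq_zero fun i hi => ?_
      rw [← pow_succ', coeff_X_pow, if_neg]
      simp only [mem_range] at hi hj
      omega
    rw [map_sub, this, sub_zero]
    exact ((p1.add (by simpa using pX 1)).mul (p1.add (pX 2))).mul
      ((pA _).add ((pX 3).mul (pG two_ne_zero M))) n

theorem main (M : ℕ) : Pos ((∏ k ∈ range (M + 4), I (2 * k + 1)) *
    ((1 - X ^ (2 * (M + 3))) * I 2 + X ^ 3 * G 2 M)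
    - X * G 1 M * ∏ k ∈ range M, (1 + X ^ (k + 3))) := by
  have hA := (pA (M + 3)).add ((pX 3).mul (pG two_ne_zero M))
  have hc := core M
  have hB := ((p1.add (show Pos X by simpa using pX 1)).mul (p1.add (pX 2))).mul hA
  have hU : Pos ((∏ k ∈ range (M + 4), I (M + 4 + k + 1)) - 1) :=
    prod_induction _ (fun f => Pos (f - 1)) (fun _ _ => Pos.mul1) (fun n => by simp)
      fun i _ => pI1 (by omega)
  have hV := (Pos.mul1 (f := 1 + X ^ (M + 3)) (g := 1 + X ^ (M + 4)) (by simpa using pX _)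
    (by simpa using pX _)).mul1 hU
  have hR : Pos (∏ k ∈ range M, (1 + X ^ (k + 3))) := pprod fun i => p1.add (pX _)
  have := hR.mul ((hB.mul hV).add hc)
  have e : ∏ k ∈ range (M + 4), (1 + (X : ℚ⟦X⟧) ^ (k + 1)) = (∏ k ∈ range M, (1 + X ^ (k + 3)))
      * (1 + X ^ 2) * (1 + X) * (1 + X ^ (M + 3)) * (1 + X ^ (M + 4)) := by
    rw [prod_range_succ, prod_range_succ, prod_range_succ', prod_range_succ']
    simp
  rw [syl, e]
  convert this using 1
  ring

end Pool.Agent.H.MP_acbfbf_co
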